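import Pool.Agent.Helper87.P3.Defs

set_option autoImplicit false

namespace Pool.Agent.Helper87.P3

open Finset

variable {M ι : Type} [DecidableEq M] {I : Inst M ι} {u : ι → ℕ}

theorem cheap_subset {A B : Finset M} (h : A ⊆ B) (hB : cheap I u B) : cheap I u A :=
  fun k => (I.mono k A B h).trans (hB k)

theorem cheap_empty : cheap I u ∅ := fun k => by rw [I.v0]; exact Nat.zero_le _

theorem v_le_erase (k : ι) (A : Finset M) (g : M) : I.v k A ≤ I.v k (A.erase g) + 1 := by
  have h1 := I.unit k (A.erase g) g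
  have h2 := I.mono k A (insert g (A.erase g)) (by
    intro y hy
    by_cases hyg : y = g
    · subst hyg; simp
    · simp [hyg, hy])
  omega

theorem emin_le {Z : Finset M} (h : emin I u Z) (k : ι) : I.v k Z ≤ u k + 1 := by
  rcases Z.eq_empty_or_nonempty with rfl | ⟨g, hg⟩
  · rw [I.v0]; exact Nat.zero_le _
  · have := h g hg k
    have := v_le_erase (I := I) k Z g
    omega

theorem win_of_emin {Z : Finset M} (h : emin I u Z) {k : ι} (hk : ¬ I.v k Z ≤ u k) :
    win I u k Z := ⟨h, by have := emin_le h k; omega⟩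

theorem le_of_not_win {Z : Finset M} (h : emin I u Z) {k : ι} (hk : ¬ win I u k Z) :
    I.v k Z ≤ u k := by
  by_contra hc
  exact hk (win_of_emin h hc)

theorem not_cheap_of_win {Z : Finset M} {k : ι} (h : win I u k Z) : ¬ cheap I u Z := by
  intro hc
  have := hc k
  have := h.2
  omega

/-- minimal non-cheap subsets -/
theorem exists_mn {A : Finset M} (h : ¬ cheap I u A) :
    ∃ Z ⊆ A, emin I u Z ∧ ∃ k, win I u k Z := by
  classical
  obtain ⟨Z, hZ, hmin⟩ := Finset.exists_min_image (A.powerset.filter (fun Z => ¬ cheap I u Z))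
    (fun Z => Z.card) ⟨A, by simp [h]⟩
  simp only [mem_filter, mem_powerset] at hZ hmin
  have he : emin I u Z := by
    intro g hg
    by_contra hc
    have := hmin (Z.erase g) ⟨(erase_subset _ _).trans hZ.1, hc⟩
    have := Finset.card_erase_lt_of_mem hg
    omega
  refine ⟨Z, hZ.1, he, ?_⟩
  have : ∃ k, ¬ I.v k Z ≤ u k := by
    by_contra hc
    push Not at hc
    exact hZ.2 hc
  obtain ⟨k, hk⟩ := this
  exact ⟨k, win_of_emin he hk⟩

/-- general minimal element version for a predicate -/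
theorem exists_minimal_not {Lo : Finset M → Prop} {A : Finset M} (h : ¬ Lo A) :
    ∃ Z ⊆ A, ¬ Lo Z ∧ ∀ g ∈ Z, Lo (Z.erase g) := by
  classical
  obtain ⟨Z, hZ, hmin⟩ := Finset.exists_min_image (A.powerset.filter (fun Z => ¬ Lo Z))
    (fun Z => Z.card) ⟨A, by simp [h]⟩
  simp only [mem_filter, mem_powerset] at hZ hmin
  refine ⟨Z, hZ.1, hZ.2, ?_⟩
  intro g hg
  by_contra hc
  have := hmin (Z.erase g) ⟨(erase_subset _ _).trans hZ.1, hc⟩
  have := Finset.card_erase_lt_of_mem hg
  omega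

theorem dem_erase {k : ι} {U : Finset M} {g : M} (h : win I u k U) (hg : g ∈ U) :
    dem I u k (U.erase g) := by
  refine ⟨h.1 g hg, ?_⟩
  have h1 := h.1 g hg k
  have h2 := v_le_erase (I := I) k U g
  have h3 := h.2
  omega

theorem dem_of_subset {k : ι} {A B : Finset M} (hB : cheap I u B) (h : A ⊆ B)
    (hA : dem I u k A) : dem I u k B := by
  refine ⟨hB, ?_⟩
  have h1 := hB k
  have h2 := I.mono k A B h
  have h3 := hA.2
  omega

theorem dem_of_win_insert {w : ι} {V Z : Finset M} {g : M} (hV : cheap I u V)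
    (hZ : Z ⊆ insert g V) (hw : win I u w Z) : dem I u w V := by
  refine ⟨hV, ?_⟩
  have h1 := I.mono w Z _ hZ
  have h2 := I.unit w V g
  have h3 := hw.2
  have h4 := hV w
  omega

theorem mem_of_not_cheap {V Z : Finset M} {g : M} (hV : cheap I u V)
    (hZ : Z ⊆ insert g V) (hw : ¬ cheap I u Z) : g ∈ Z := by
  by_contra hc
  apply hw
  apply cheap_subset _ hV
  intro y hy
  rcases mem_insert.1 (hZ hy) with rfl | h
  · exact absurd hy hc
  · exact h

theorem emin_mono {Z : Finset M} {u' : ι → ℕ} (h : ∀ k, u k ≤ u' k) (hZ : emin I u Z) :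
    emin I u' Z := fun g hg k => (hZ g hg k).trans (h k)

theorem cheap_mono {Z : Finset M} {u' : ι → ℕ} (h : ∀ k, u k ≤ u' k) (hZ : cheap I u Z) :
    cheap I u' Z := fun k => (hZ k).trans (h k)

theorem acc_congr {i : ι} {Z : Finset M} {u' : ι → ℕ} (h : ∀ k, u k ≤ u' k) (hi : u' i = u i)
    (hZ : acc I u i Z) : acc I u' i Z := by
  rcases hZ with hZ | hZ
  · exact Or.inl ⟨cheap_mono h hZ.1, by rw [hi]; exact hZ.2⟩
  · exact Or.inr ⟨emin_mono h hZ.1, by rw [hi]; exact hZ.2⟩

theorem Tri.rot {a b c : ι} (h : Tri a b c) : Tri b c a :=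
  ⟨h.2.1, h.2.2.1.symm, h.1.symm, fun k => by rcases h.2.2.2 k with h | h | h <;> tauto⟩

theorem Tri.swap {a b c : ι} (h : Tri a b c) : Tri b a c :=
  ⟨h.1.symm, h.2.2.1, h.2.1, fun k => by rcases h.2.2.2 k with h | h | h <;> tauto⟩

theorem Tri.swap2 {a b c : ι} (h : Tri a b c) : Tri a c b :=
  ⟨h.2.2.1, h.2.1.symm, h.1, fun k => by rcases h.2.2.2 k with h | h | h <;> tauto⟩

theorem Dis3.rot {A B C : Finset M} (h : Dis3 A B C) : Dis3 B C A :=
  ⟨h.2.1, h.2.2.symm, h.1.symm⟩

theorem Dis3.swap {A B C : Finset M} (h : Dis3 A B C) : Dis3 B A C :=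
  ⟨h.1.symm, h.2.2, h.2.1⟩

theorem Dis3.swap2 {A B C : Finset M} (h : Dis3 A B C) : Dis3 A C B :=
  ⟨h.2.2, h.2.1.symm, h.1⟩

theorem Dis3.mono {A B C A' B' C' : Finset M} (h : Dis3 A B C) (hA : A' ⊆ A) (hB : B' ⊆ B)
    (hC : C' ⊆ C) : Dis3 A' B' C' :=
  ⟨h.1.mono hA hB, h.2.1.mono hB hC, h.2.2.mono hA hC⟩

/-- a bundle won by exactly one agent cannot occur in a state at maximal levels -/
theorem F1 {a b c : ι} {A B C : Finset M} (hT : Tmax I u) (h3 : Tri a b c) (hd : Dis3 A B C)
    (ha : win I u a A) (hb : acc I u b B) (hc : acc I u c C) :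
    win I u b A ∨ win I u c A := by
  classical
  by_contra hcon
  push Not at hcon
  have hb' := le_of_not_win ha.1 hcon.1
  have hc' := le_of_not_win ha.1 hcon.2
  set u' : ι → ℕ := fun k => if k = a then u k + 1 else u k with hu'
  have hle : ∀ k, u k ≤ u' k := by intro k; simp only [hu']; split_ifs <;> omega
  have hub : u' b = u b := by simp only [hu']; rw [if_neg h3.1.symm]
  have huc : u' c = u c := by simp only [hu']; rw [if_neg h3.2.2.1.symm]
  have hua : u' a = u a + 1 := by simp [hu']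
  have hst : St3 I u' a A b B c C := by
    refine ⟨hd, Or.inl ⟨?_, by rw [hua]; exact ha.2⟩, acc_congr hle hub hb, acc_congr hle huc hc⟩
    intro k
    rcases h3.2.2.2 k with rfl | rfl | rfl
    · rw [hua, ha.2]
    · rw [hub]; exact hb'
    · rw [huc]; exact hc'
  have := hT u' a b c A B C h3 hst
  omega

/-- two bundles whose winners are exactly two agents cannot occur -/
theorem F2 {a b c : ι} {A B C : Finset M} (hT : Tmax I u) (h3 : Tri a b c) (hd : Dis3 A B C)
    (ha : win I u a A) (hb : win I u b B) (hc : acc I u c C) :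
    win I u c A ∨ win I u c B := by
  classical
  by_contra hcon
  push Not at hcon
  have hcA := le_of_not_win ha.1 hcon.1
  have hcB := le_of_not_win hb.1 hcon.2
  set u' : ι → ℕ := fun k => if k = a ∨ k = b then u k + 1 else u k with hu'
  have hle : ∀ k, u k ≤ u' k := by intro k; simp only [hu']; split_ifs <;> omega
  have hua : u' a = u a + 1 := by simp [hu']
  have hub : u' b = u b + 1 := by simp [hu']
  have huc : u' c = u c := by
    simp only [hu']
    rw [if_neg]
    rintro (h | h)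
    · exact h3.2.2.1 h.symm
    · exact h3.2.1 h.symm
  have hst : St3 I u' a A b B c C := by
    refine ⟨hd, Or.inl ⟨?_, by rw [hua]; exact ha.2⟩, Or.inl ⟨?_, by rw [hub]; exact hb.2⟩,
      acc_congr hle huc hc⟩
    · intro k
      rcases h3.2.2.2 k with rfl | rfl | rfl
      · rw [hua, ha.2]
      · rw [hub]; exact emin_le ha.1 _
      · rw [huc]; exact hcA
    · intro k
      rcases h3.2.2.2 k with rfl | rfl | rfl
      · rw [hua]; exact emin_le hb.1 _
      · rw [hub, hb.2]
      · rw [huc]; exact hcB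
  have := hT u' a b c A B C h3 hst
  omega

/-- there are never three winners -/
theorem F3 {a b c : ι} {A B C : Finset M} (hT : Tmax I u) (h3 : Tri a b c) (hd : Dis3 A B C)
    (ha : win I u a A) (hb : win I u b B) (hc : win I u c C) : False := by
  classical
  set u' : ι → ℕ := fun k => u k + 1 with hu'
  have hst : St3 I u' a A b B c C :=
    ⟨hd, Or.inl ⟨fun k => emin_le ha.1 k, ha.2⟩, Or.inl ⟨fun k => emin_le hb.1 k, hb.2⟩,
      Or.inl ⟨fun k => emin_le hc.1 k, hc.2⟩⟩
  have := hT u' a b c A B C h3 hst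
  simp only [hu'] at this
  omega

/-- splitting: if both parts of one splitting have value at least `t`, one part of any other
splitting has -/
theorem split {k : ι} {t : ℕ} {P P' A B : Finset M} (hP : Disjoint P P') (hA : Disjoint A B)
    (h : P ∪ P' = A ∪ B) (h1 : t ≤ I.v k P) (h2 : t ≤ I.v k P') :
    t ≤ I.v k A ∨ t ≤ I.v k B := by
  have := I.feas k P P' A B hP hA h
  rcases le_max_iff.1 ((le_min h1 h2).trans this) with h | h
  · exact Or.inl h
  · exact Or.inr h

theorem split_le {k : ι} {t : ℕ} {P P' A B : Finset M} (hP : Disjoint P P') (hA : Disjoint A B)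
    (h : P ∪ P' = A ∪ B) (h1 : I.v k A ≤ t) (h2 : I.v k B ≤ t) :
    min (I.v k P) (I.v k P') ≤ t :=
  (I.feas k P P' A B hP hA h).trans (max_le h1 h2)

variable [Fintype M]

/-- a complete state without winner is good -/
theorem good_of_dem {a b c : ι} {A B C : Finset M} (h3 : Tri a b c) (hd : Dis3 A B C)
    (hu : A ∪ B ∪ C = univ) (ha : dem I u a A) (hb : dem I u b B) (hc : dem I u c C) :
    Good I := by
  refine ⟨a, b, c, A, B, C, h3, hd, hu, ?_, ?_, ?_, ?_, ?_, ?_⟩ <;> intro P P' hP hPP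
  · rw [ha.2]; exact split_le hP hd.1 hPP (ha.1 a) (hb.1 a)
  · rw [ha.2]; exact split_le hP hd.2.2 hPP (ha.1 a) (hc.1 a)
  · rw [hb.2]; exact split_le hP hd.1 hPP (ha.1 b) (hb.1 b)
  · rw [hb.2]; exact split_le hP hd.2.1 hPP (hb.1 b) (hc.1 b)
  · rw [hc.2]; exact split_le hP hd.2.2 hPP (ha.1 c) (hc.1 c)
  · rw [hc.2]; exact split_le hP hd.2.1 hPP (hb.1 c) (hc.1 c)

/-- in a complete state with exactly one winner `a`, if it is not good one of the two others
violates PMMS against the winner -/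
theorem violator_one {x a b : ι} {V U W : Finset M} (hG : ¬ Good I) (h3 : Tri x a b)
    (hd : Dis3 V U W) (hu : V ∪ U ∪ W = univ) (hx : dem I u x V) (ha : win I u a U)
    (hb : dem I u b W) :
    (∃ P P' : Finset M, Disjoint P P' ∧ P ∪ P' = V ∪ U ∧ u x + 1 ≤ I.v x P ∧
      u x + 1 ≤ I.v x P') ∨
    (∃ P P' : Finset M, Disjoint P P' ∧ P ∪ P' = U ∪ W ∧ u b + 1 ≤ I.v b P ∧
      u b + 1 ≤ I.v b P') := by
  by_contra hcon
  push Not at hcon
  apply hG
  refine ⟨x, a, b, V, U, W, h3, hd, hu, ?_, ?_, ?_, ?_, ?_, ?_⟩ <;> intro P P' hP hPP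
  · rw [hx.2]
    have := hcon.1 P P' hP hPP
    by_contra hc
    rw [not_le, lt_min_iff] at hc
    have := this hc.1
    omega
  · rw [hx.2]; exact split_le hP hd.2.2 hPP (hx.1 x) (hb.1 x)
  · rw [ha.2]; exact split_le hP hd.1 hPP ((hx.1 a).trans (Nat.le_succ _)) (emin_le ha.1 a)
  · rw [ha.2]; exact split_le hP hd.2.1 hPP (emin_le ha.1 a) ((hb.1 a).trans (Nat.le_succ _))
  · rw [hb.2]; exact split_le hP hd.2.2 hPP (hx.1 b) (hb.1 b)
  · rw [hb.2]
    have := hcon.2 P P' hP hPP
    by_contra hc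
    rw [not_le, lt_min_iff] at hc
    have := this hc.1
    omega

/-- in a complete state with exactly two winners, if it is not good the third agent violates
PMMS against one of them -/
theorem violator_two {x a b : ι} {V U W : Finset M} (hG : ¬ Good I) (h3 : Tri x a b)
    (hd : Dis3 V U W) (hu : V ∪ U ∪ W = univ) (hx : dem I u x V) (ha : win I u a U)
    (hb : win I u b W) :
    (∃ P P' : Finset M, Disjoint P P' ∧ P ∪ P' = V ∪ U ∧ u x + 1 ≤ I.v x P ∧
      u x + 1 ≤ I.v x P') ∨
    (∃ P P' : Finset M, Disjoint P P' ∧ P ∪ P' = V ∪ W ∧ u x + 1 ≤ I.v x P ∧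
      u x + 1 ≤ I.v x P') := by
  by_contra hcon
  push Not at hcon
  apply hG
  refine ⟨x, a, b, V, U, W, h3, hd, hu, ?_, ?_, ?_, ?_, ?_, ?_⟩ <;> intro P P' hP hPP
  · rw [hx.2]
    have := hcon.1 P P' hP hPP
    by_contra hc
    rw [not_le, lt_min_iff] at hc
    have := this hc.1
    omega
  · rw [hx.2]
    have := hcon.2 P P' hP hPP
    by_contra hc
    rw [not_le, lt_min_iff] at hc
    have := this hc.1
    omega
  · rw [ha.2]; exact split_le hP hd.1 hPP ((hx.1 a).trans (Nat.le_succ _)) (emin_le ha.1 a)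
  · rw [ha.2]; exact split_le hP hd.2.1 hPP (emin_le ha.1 a) (emin_le hb.1 a)
  · rw [hb.2]; exact split_le hP hd.2.2 hPP ((hx.1 b).trans (Nat.le_succ _)) (emin_le hb.1 b)
  · rw [hb.2]; exact split_le hP hd.2.1 hPP (emin_le ha.1 b) (emin_le hb.1 b)

end Pool.Agent.Helper87.P3
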