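import Mathlib

set_option autoImplicit false

namespace Pool.Agent.Helper87.P3

open Finset

/-- natural-valued instance: binary-marginal, MMS-feasible valuations -/
structure Inst (M ι : Type) [DecidableEq M] where
  v : ι → Finset M → ℕ
  v0 : ∀ i, v i ∅ = 0
  mono : ∀ i (A B : Finset M), A ⊆ B → v i A ≤ v i B
  unit : ∀ i (A : Finset M) (g : M), v i (insert g A) ≤ v i A + 1
  feas : ∀ i (A A' B B' : Finset M), Disjoint A A' → Disjoint B B' → A ∪ A' = B ∪ B' →
    min (v i A) (v i A') ≤ max (v i B) (v i B')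

variable {M ι : Type} [DecidableEq M]

/-- losing for everybody at the levels `u` -/
def cheap (I : Inst M ι) (u : ι → ℕ) (A : Finset M) : Prop := ∀ k, I.v k A ≤ u k

/-- agent `i` demands the cheap bundle `A` -/
def dem (I : Inst M ι) (u : ι → ℕ) (i : ι) (A : Finset M) : Prop := cheap I u A ∧ I.v i A = u i

/-- all bundles obtained by deleting one item are cheap -/
def emin (I : Inst M ι) (u : ι → ℕ) (A : Finset M) : Prop := ∀ g ∈ A, cheap I u (A.erase g)

/-- agent `i` wins the bundle `A`, which is minimal for everybody -/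
def win (I : Inst M ι) (u : ι → ℕ) (i : ι) (A : Finset M) : Prop :=
  emin I u A ∧ I.v i A = u i + 1

/-- `A` is acceptable for `i` -/
def acc (I : Inst M ι) (u : ι → ℕ) (i : ι) (A : Finset M) : Prop := dem I u i A ∨ win I u i A

/-- three different agents exhausting the set of agents -/
def Tri (a b c : ι) : Prop := a ≠ b ∧ b ≠ c ∧ a ≠ c ∧ ∀ k, k = a ∨ k = b ∨ k = c

/-- pairwise disjoint bundles -/
def Dis3 (A B C : Finset M) : Prop := Disjoint A B ∧ Disjoint B C ∧ Disjoint A C

/-- a state with levels `u`: agent `a` holds `A`, `b` holds `B`, `c` holds `C` -/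
def St3 (I : Inst M ι) (u : ι → ℕ) (a : ι) (A : Finset M) (b : ι) (B : Finset M) (c : ι)
    (C : Finset M) : Prop :=
  Dis3 A B C ∧ acc I u a A ∧ acc I u b B ∧ acc I u c C

/-- no state has larger total level -/
def Tmax (I : Inst M ι) (u : ι → ℕ) : Prop :=
  ∀ (u' : ι → ℕ) (a b c : ι) (A B C : Finset M), Tri a b c → St3 I u' a A b B c C →
    u' a + u' b + u' c ≤ u a + u b + u c

/-- no state at the levels `u` has two winners -/
def NoTwo (I : Inst M ι) (u : ι → ℕ) : Prop :=
  ∀ (a b c : ι) (A B C : Finset M), Tri a b c → Dis3 A B C →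
    win I u a A → win I u b B → acc I u c C → False

variable [Fintype M]

/-- a complete allocation to three agents in which nobody violates PMMS -/
def Good (I : Inst M ι) : Prop :=
  ∃ (a b c : ι) (A B C : Finset M), Tri a b c ∧ Dis3 A B C ∧ A ∪ B ∪ C = univ ∧
    (∀ P P' : Finset M, Disjoint P P' → P ∪ P' = A ∪ B → min (I.v a P) (I.v a P') ≤ I.v a A) ∧
    (∀ P P' : Finset M, Disjoint P P' → P ∪ P' = A ∪ C → min (I.v a P) (I.v a P') ≤ I.v a A) ∧
    (∀ P P' : Finset M, Disjoint P P' → P ∪ P' = A ∪ B → min (I.v b P) (I.v b P') ≤ I.v b B) ∧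
    (∀ P P' : Finset M, Disjoint P P' → P ∪ P' = B ∪ C → min (I.v b P) (I.v b P') ≤ I.v b B) ∧
    (∀ P P' : Finset M, Disjoint P P' → P ∪ P' = A ∪ C → min (I.v c P) (I.v c P') ≤ I.v c C) ∧
    (∀ P P' : Finset M, Disjoint P P' → P ∪ P' = B ∪ C → min (I.v c P) (I.v c P') ≤ I.v c C)

end Pool.Agent.Helper87.P3
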