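import Pool.Agent.Helper87.P3.Basic
import Pool.Agent.Helper6.P3.PL
import Pool.Agent.Helper6.P3.TWO
import Pool.Agent.Helper35.P3.ML
import Pool.Agent.Helper49.P3.ONE
import Pool.Agent.Helper51.P3.Zero

set_option autoImplicit false

namespace Pool.Agent.Helper87.P3

open Finset

variable {M : Type} [DecidableEq M] [Fintype M]

theorem tri_sum {a b c : Fin 3} (h : Tri a b c) (f : Fin 3 → ℕ) :
    f a + f b + f c = f 0 + f 1 + f 2 := by
  obtain ⟨h1, h2, h3, _⟩ := h
  fin_cases a <;> fin_cases b <;> fin_cases c <;> simp_all <;> omega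

theorem acc_lower {I : Inst M (Fin 3)} {u : Fin 3 → ℕ} {i : Fin 3} {A : Finset M}
    (h : acc I u i A) : u i ≤ I.v i univ := by
  have h1 := I.mono i A univ (subset_univ _)
  rcases h with h | h
  · rw [← h.2]; exact h1
  · have := h.2; omega

theorem exists_Tmax (I : Inst M (Fin 3)) :
    ∃ (u : Fin 3 → ℕ) (a b c : Fin 3) (A B C : Finset M), Tri a b c ∧ St3 I u a A b B c C ∧
      Tmax I u := by
  classical
  let P : ℕ → Prop := fun n => ∃ (u : Fin 3 → ℕ) (a b c : Fin 3) (A B C : Finset M),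
    Tri a b c ∧ St3 I u a A b B c C ∧ u 0 + u 1 + u 2 = n
  have hP0 : P 0 := by
    refine ⟨fun _ => 0, 0, 1, 2, ∅, ∅, ∅, ?_, ?_, rfl⟩
    · refine ⟨by decide, by decide, by decide, ?_⟩
      decide
    · refine ⟨⟨?_, ?_, ?_⟩, Or.inl ?_, Or.inl ?_, Or.inl ?_⟩
      · simp
      · simp
      · simp
      · exact ⟨cheap_empty, I.v0 _⟩
      · exact ⟨cheap_empty, I.v0 _⟩
      · exact ⟨cheap_empty, I.v0 _⟩
  let N := I.v 0 univ + I.v 1 univ + I.v 2 univ
  have hbd : ∀ n, P n → n ≤ N := by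
    rintro n ⟨u, a, b, c, A, B, C, h3, hst, rfl⟩
    have ha := acc_lower hst.2.1
    have hb := acc_lower hst.2.2.1
    have hc := acc_lower hst.2.2.2
    have h1 := tri_sum h3 u
    have h2 := tri_sum h3 (fun i => I.v i univ)
    simp only [N]
    omega
  have hspec := Nat.findGreatest_spec (P := P) (Nat.zero_le N) hP0
  obtain ⟨u, a, b, c, A, B, C, h3, hst, hs⟩ := hspec
  refine ⟨u, a, b, c, A, B, C, h3, hst, ?_⟩
  intro u' a' b' c' A' B' C' h3' hst'
  have hP' : P (u' 0 + u' 1 + u' 2) := ⟨u', a', b', c', A', B', C', h3', hst', rfl⟩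
  have hle := Nat.le_findGreatest (P := P) (hbd _ hP') hP'
  have e1 := tri_sum h3' u'
  have e2 := tri_sum h3' u
  omega

theorem good_exists (I : Inst M (Fin 3)) : Good I := by
  classical
  obtain ⟨u, a, b, c, A, B, C, h3, hst, hT⟩ := exists_Tmax I
  by_cases h2 : ∃ (x a b : Fin 3) (V U W : Finset M), Tri x a b ∧ Dis3 V U W ∧ acc I u x V ∧
      win I u a U ∧ win I u b W
  · obtain ⟨x, a, b, V, U, W, h3, hd, hx, ha, hb⟩ := h2
    exact Pool.Agent.Helper6.P3.two M (Fin 3) I u x a b V U W h3 hT hd hx ha hb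
  have hno : NoTwo I u := by
    intro a b c A B C h3 hd ha hb hc
    exact h2 ⟨c, a, b, C, A, B, h3.rot.rot, hd.rot.rot, hc, ha, hb⟩
  by_cases h1 : ∃ (x a b : Fin 3) (V U W : Finset M), Tri x a b ∧ Dis3 V U W ∧ dem I u x V ∧
      win I u a U ∧ dem I u b W
  · obtain ⟨x, a, b, V, U, W, h3, hd, hx, ha, hb⟩ := h1
    exact Pool.Agent.Helper49.P3.one Pool.Agent.Helper6.P3.pl
      (Pool.Agent.Helper35.P3.ml_thm Pool.Agent.Helper6.P3.pl) M (Fin 3) I u x a b V U W h3 hT
      hno hd hx ha hb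
  have hall : ∀ (x a b : Fin 3) (V U W : Finset M), Tri x a b → Dis3 V U W → acc I u x V →
      acc I u a U → win I u b W → False := by
    intro x a b V U W h3 hd hx ha hb
    rcases hx with hx | hx
    · rcases ha with ha | ha
      · exact h1 ⟨x, b, a, V, W, U, h3.swap2, hd.swap2, hx, hb, ha⟩
      · exact h2 ⟨x, a, b, V, U, W, h3, hd, Or.inl hx, ha, hb⟩
    · exact h2 ⟨a, x, b, U, V, W, h3.swap, hd.swap, ha, hx, hb⟩
  obtain ⟨hd, ha, hb, hc⟩ := hst
  have ha' : dem I u a A := by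
    rcases ha with h | h
    · exact h
    · exact absurd (hall b c a B C A h3.rot hd.rot hb hc h) id
  have hb' : dem I u b B := by
    rcases hb with h | h
    · exact h
    · exact absurd (hall c a b C A B h3.rot.rot hd.rot.rot hc ha h) id
  have hc' : dem I u c C := by
    rcases hc with h | h
    · exact h
    · exact absurd (hall a b c A B C h3 hd ha hb h) id
  exact Pool.Agent.Helper51.P3.zero_thm M (Fin 3) I u a b c A B C h3 hd ha' hb' hc' hall

end Pool.Agent.Helper87.P3
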