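import Pool.Agent.Helper87.P3.Defs

set_option autoImplicit false

namespace Pool.Agent.Helper87.P3

open Finset

variable {M ι : Type} [DecidableEq M]

/-! Abstract pair lemma. `Lo` = losing for everybody, `Wx` = winning for `x`. -/
def S_PL : Prop := ∀ (M : Type) [DecidableEq M] (S Y₁ Y₂ : Finset M) (Lo Wx : Finset M → Prop)
    (C : Finset M → Prop),
    (∀ A B : Finset M, A ⊆ B → Lo B → Lo A) →
    (∀ A B : Finset M, A ⊆ B → Wx A → Wx B) →
    (∀ A : Finset M, Wx A → ¬ Lo A) →
    (∀ A B : Finset M, Disjoint A B → A ∪ B = S → Wx A ∨ Wx B) →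
    Disjoint Y₁ Y₂ → Y₁ ∪ Y₂ = S → Wx Y₁ → Wx Y₂ →
    (∀ V, C V → V ⊆ S ∧ Lo V ∧ ∀ g ∈ S \ V, Lo ((S \ V).erase g)) →
    (∀ V, C V → ∀ g ∈ S \ V, ∀ U' ⊆ insert g V, ¬ Lo U' → (∀ h ∈ U', Lo (U'.erase h)) →
      C (S \ U')) →
    ∀ V, ¬ C V

/-! main lemma: no complete state with exactly one winner has a violator whose two
  opponents both demand the third bundle -/
def S_ML : Prop := ∀ (M ι : Type) [DecidableEq M] [Fintype M] (I : Inst M ι) (u : ι → ℕ)
    (x a b : ι) (V U W P P' : Finset M),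
    Tri x a b → Tmax I u → NoTwo I u → ¬ Good I →
    Dis3 V U W → V ∪ U ∪ W = univ → dem I u x V → win I u a U → dem I u b W → dem I u a W →
    Disjoint P P' → P ∪ P' = V ∪ U → u x + 1 ≤ I.v x P → u x + 1 ≤ I.v x P' → False

/-! if a state with one winner exists and no state has two winners then a good allocation exists -/
def S_ONE : Prop := ∀ (M ι : Type) [DecidableEq M] [Fintype M] (I : Inst M ι) (u : ι → ℕ)
    (x a b : ι) (V U W : Finset M),
    Tri x a b → Tmax I u → NoTwo I u →
    Dis3 V U W → dem I u x V → win I u a U → dem I u b W → Good I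

/-! two winners -/
def S_TWO : Prop := ∀ (M ι : Type) [DecidableEq M] [Fintype M] (I : Inst M ι) (u : ι → ℕ)
    (x a b : ι) (V U W : Finset M),
    Tri x a b → Tmax I u → Dis3 V U W → acc I u x V → win I u a U → win I u b W → Good I

/-! no winner in any state -/
def S_ZERO : Prop := ∀ (M ι : Type) [DecidableEq M] [Fintype M] (I : Inst M ι) (u : ι → ℕ)
    (x a b : ι) (V U W : Finset M),
    Tri x a b → Dis3 V U W → dem I u x V → dem I u a U → dem I u b W →
    (∀ (x a b : ι) (V U W : Finset M), Tri x a b → Dis3 V U W → acc I u x V → acc I u a U →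
      win I u b W → False) → Good I

end Pool.Agent.Helper87.P3
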